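import Pool.Agent.L7h74.HS.All
import Pool.Agent.L7h3.HS.Ext

/-!
# Simple connectedness is not expressible in first-order homotopical logic

The signature with one sort and no function symbols, interpreted in the singular simplicial set of a
topological space (`Pool/Agent/L7h74/HS/Sem.lean`).

* Every formula has an interpretation, and it is unique up to isomorphism.
* No sentence is true in exactly the simply connected spaces.
* There are two path connected topological spaces in which the same sentences are true, one of them
  simply connected, the other one not.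

The two spaces are Eilenberg-MacLane spaces `K(F₂, 1)` and `K(F₂, 2)`.
-/

set_option autoImplicit false

namespace Pool.Agent.Results.MP_339d31_lc.SimpleConnectedness

open CategoryTheory Pool.Agent.L7h74.HS

theorem result :
    (∀ (X : SSet.{0}) (n : ℕ) (φ : Form n), ∃ E : Over (pw X n), Interp X φ E ∧
      ∀ E' : Over (pw X n), Interp X φ E' → Nonempty (E ≅ E')) ∧
    (¬ ∃ φ : Form 0, ∀ (X : Type) [TopologicalSpace X],
      TrueIn (TopCat.toSSet.obj (TopCat.of X)) φ ↔ SimplyConnectedSpace X) ∧
    ∃ (X Y : Type) (_ : TopologicalSpace X) (_ : TopologicalSpace Y),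
      PathConnectedSpace X ∧ ¬ SimplyConnectedSpace X ∧ SimplyConnectedSpace Y ∧
        ∀ φ : Form 0, TrueIn (TopCat.toSSet.obj (TopCat.of X)) φ ↔
          TrueIn (TopCat.toSSet.obj (TopCat.of Y)) φ := by
  refine ⟨interp, ?_, two_spaces Pool.Agent.L7h3.HS.s_EXT⟩
  rintro ⟨φ, hφ⟩
  obtain ⟨X, Y, i, j, -, h1, h2, h3⟩ := two_spaces Pool.Agent.L7h3.HS.s_EXT
  exact h1 ((hφ X).1 ((h3 φ).2 ((hφ Y).2 h2)))

end Pool.Agent.Results.MP_339d31_lc.SimpleConnectedness
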